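import Pool.Agent.H88.CL.Basic

/-!
# FRM: isotropic frames
-/

set_option autoImplicit false

open Pool.Agent.H88.CL Set Function Topology Metric Filter

namespace Pool.Agent.H33.CL

open ContinuousLinearMap (adjoint)

/-- The scaled isotropic position. -/
theorem scaled (h : T_ISO) (d : ℕ) (hd : 1 ≤ d) (N : ℕ) (hN : 1 ≤ N) (K : ℝ) (hK : 1 ≤ K)
    (B B' : ℕ → E d →L[ℝ] E d) (hB : ∀ l < N, ‖B l‖ ≤ K ∧ ‖B' l‖ ≤ K ∧
      (∀ x, B' l (B l x) = x) ∧ (∀ x, B l (B' l x) = x)) :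
    ∃ (Q : E d ≃L[ℝ] E d) (c : ℕ → ℝ), (∀ l < N, 0 < c l ∧
      c l * ‖(B l).comp (Q : E d →L[ℝ] E d)‖ ^ 2 ≤ 1) ∧
      (∀ v w : E d, ∑ l ∈ Finset.range N, c l * inner ℝ (B l (Q v)) (B l (Q w)) =
        (N : ℝ) / d * inner ℝ v w) ∧ (∀ v, ‖Q v‖ ≤ ‖v‖) ∧ ∀ v, ‖v‖ ≤ K ^ 2 * ‖Q v‖ := by
  obtain ⟨Q, c, hc, hiso⟩ := h d hd N hN B B' fun l hl => ⟨(hB l hl).2.2.1, (hB l hl).2.2.2⟩
  have hd0 : (0 : ℝ) < d := by exact_mod_cast hd
  have hN0 : (0 : ℝ) < N := by exact_mod_cast hN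
  have hK0 : 0 < K := by linarith
  obtain ⟨C, hC⟩ : ∃ C, C = ∑ l ∈ Finset.range N, c l := ⟨_, rfl⟩
  have hC0 : 0 < C := by
    rw [hC]
    exact Finset.sum_pos (fun l hl => (hc l (Finset.mem_range.1 hl)).1)
      (Finset.nonempty_range_iff.2 (by omega))
  have hnorm : ∀ l < N, ∀ w : E d, ‖B l w‖ ≤ K * ‖w‖ ∧ ‖w‖ ≤ K * ‖B l w‖ := by
    intro l hl w
    obtain ⟨h1, h2, h3, _⟩ := hB l hl
    refine ⟨(B l).le_of_opNorm_le h1 w, ?_⟩
    have h4 := (B' l).le_of_opNorm_le h2 (B l w)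
    rwa [h3 w] at h4
  have hself : ∀ v : E d, ∑ l ∈ Finset.range N, c l * ‖B l (Q v)‖ ^ 2 = (N : ℝ) / d * ‖v‖ ^ 2 := by
    intro v
    have h1 := hiso v v
    simp only [real_inner_self_eq_norm_sq] at h1
    exact h1
  have hup : ∀ v : E d, C * ‖Q v‖ ^ 2 ≤ K ^ 2 * ((N : ℝ) / d * ‖v‖ ^ 2) := by
    intro v
    rw [← hself v, hC, Finset.sum_mul, Finset.mul_sum]
    refine Finset.sum_le_sum fun l hl => ?_
    have h1 := (hnorm l (Finset.mem_range.1 hl) (Q v)).2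
    have h2 : ‖Q v‖ ^ 2 ≤ (K * ‖B l (Q v)‖) ^ 2 := pow_le_pow_left₀ (norm_nonneg _) h1 2
    calc c l * ‖Q v‖ ^ 2 ≤ c l * (K * ‖B l (Q v)‖) ^ 2 :=
          mul_le_mul_of_nonneg_left h2 (hc l (Finset.mem_range.1 hl)).1.le
      _ = K ^ 2 * (c l * ‖B l (Q v)‖ ^ 2) := by ring
  have hlow : ∀ v : E d, (N : ℝ) / d * ‖v‖ ^ 2 ≤ K ^ 2 * (C * ‖Q v‖ ^ 2) := by
    intro v
    rw [← hself v, hC, Finset.sum_mul, Finset.mul_sum]
    refine Finset.sum_le_sum fun l hl => ?_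
    have h1 := (hnorm l (Finset.mem_range.1 hl) (Q v)).1
    have h2 : ‖B l (Q v)‖ ^ 2 ≤ (K * ‖Q v‖) ^ 2 := pow_le_pow_left₀ (norm_nonneg _) h1 2
    calc c l * ‖B l (Q v)‖ ^ 2 ≤ c l * (K * ‖Q v‖) ^ 2 :=
          mul_le_mul_of_nonneg_left h2 (hc l (Finset.mem_range.1 hl)).1.le
      _ = K ^ 2 * (c l * ‖Q v‖ ^ 2) := by ring
  obtain ⟨s, hs0, hs⟩ : ∃ s : ℝ, 0 < s ∧ s ^ 2 = d * C / (N * K ^ 2) :=
    ⟨Real.sqrt (d * C / (N * K ^ 2)), Real.sqrt_pos.2 (by positivity),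
      Real.sq_sqrt (by positivity)⟩
  obtain ⟨Q', hQ'⟩ : ∃ Q' : E d ≃L[ℝ] E d, ∀ v, Q' v = s • Q v :=
    ⟨Q.trans (ContinuousLinearEquiv.smulLeft (Units.mk0 s hs0.ne')), fun v => rfl⟩
  refine ⟨Q', fun l => c l / s ^ 2, fun l hl => ⟨?_, ?_⟩, fun v w => ?_, fun v => ?_, fun v => ?_⟩
  · exact div_pos (hc l hl).1 (by positivity)
  · have h1 : (B l).comp (Q' : E d →L[ℝ] E d) = s • (B l).comp (Q : E d →L[ℝ] E d) := by
      ext1 v
      show B l (Q' v) = s • B l (Q v)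
      rw [hQ', map_smul]
    rw [h1, norm_smul, Real.norm_eq_abs, abs_of_pos hs0, mul_pow]
    have h2 := (hc l hl).2
    have h3 : c l / s ^ 2 * (s ^ 2 * ‖(B l).comp (Q : E d →L[ℝ] E d)‖ ^ 2) =
        c l * ‖(B l).comp (Q : E d →L[ℝ] E d)‖ ^ 2 := by
      field_simp
    rw [h3]
    exact h2
  · rw [← hiso v w]
    refine Finset.sum_congr rfl fun l _ => ?_
    rw [hQ', hQ', map_smul, map_smul, real_inner_smul_left, real_inner_smul_right]
    field_simp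
  · rw [hQ', norm_smul, Real.norm_eq_abs, abs_of_pos hs0]
    refine le_of_sq_le_sq ?_ (norm_nonneg _)
    rw [mul_pow, hs]
    have h1 := hup v
    rw [div_mul_eq_mul_div, div_le_iff₀ (by positivity)]
    calc (d : ℝ) * C * ‖Q v‖ ^ 2 = d * (C * ‖Q v‖ ^ 2) := by ring
      _ ≤ d * (K ^ 2 * ((N : ℝ) / d * ‖v‖ ^ 2)) := mul_le_mul_of_nonneg_left h1 hd0.le
      _ = ‖v‖ ^ 2 * (N * K ^ 2) := by field_simp
  · rw [hQ', norm_smul, Real.norm_eq_abs, abs_of_pos hs0]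
    refine le_of_sq_le_sq ?_ (by positivity)
    rw [mul_pow, mul_pow, hs]
    have h1 := hlow v
    have h2 : (K ^ 2) ^ 2 * (d * C / (N * K ^ 2) * ‖Q v‖ ^ 2) =
        d / N * (K ^ 2 * (C * ‖Q v‖ ^ 2)) := by
      field_simp
    rw [h2]
    calc ‖v‖ ^ 2 = d / N * ((N : ℝ) / d * ‖v‖ ^ 2) := by field_simp
      _ ≤ _ := mul_le_mul_of_nonneg_left h1 (by positivity)

theorem pf_FRM (h : T_ISO) : T_FRM := by
  intro d hd N hN K hK A A' hA
  have hd0 : (0 : ℝ) < d := by exact_mod_cast hd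
  have hN0 : (0 : ℝ) < N := by exact_mod_cast hN
  have hK0 : 0 < K := by linarith
  have hadj : ∀ X Y : E d →L[ℝ] E d, (∀ x, Y (X x) = x) → ∀ x, adjoint X (adjoint Y x) = x := by
    intro X Y hXY x
    have h1 : Y.comp X = ContinuousLinearMap.id ℝ (E d) := by
      ext1 x
      exact hXY x
    have h2 := ContinuousLinearMap.adjoint_comp Y X
    rw [h1, ContinuousLinearMap.adjoint_id] at h2
    have h3 := congrArg (fun F : E d →L[ℝ] E d => F x) h2
    exact h3.symm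
  obtain ⟨Q, c, hc, hiso, hQ1, hQ2⟩ := scaled h d hd N hN K hK (fun l => adjoint (A' l))
    (fun l => adjoint (A l)) fun l hl => by
      obtain ⟨h1, h2, h3, h4⟩ := hA l hl
      refine ⟨?_, ?_, hadj _ _ h3, hadj _ _ h4⟩
      · rw [LinearIsometryEquiv.norm_map]
        exact h2
      · rw [LinearIsometryEquiv.norm_map]
        exact h1
  have hQn : ‖(Q : E d →L[ℝ] E d)‖ ≤ 1 :=
    ContinuousLinearMap.opNorm_le_bound _ zero_le_one fun v => by
      rw [one_mul]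
      exact hQ1 v
  have hQs : ‖(Q.symm : E d →L[ℝ] E d)‖ ≤ K ^ 2 :=
    ContinuousLinearMap.opNorm_le_bound _ (by positivity) fun v => by
      have h1 := hQ2 (Q.symm v)
      rw [Q.apply_symm_apply] at h1
      exact h1
  have e1 : ∀ x, adjoint (Q.symm : E d →L[ℝ] E d) (adjoint (Q : E d →L[ℝ] E d) x) = x :=
    hadj _ _ fun x => Q.apply_symm_apply x
  have e2 : ∀ x, adjoint (Q : E d →L[ℝ] E d) (adjoint (Q.symm : E d →L[ℝ] E d) x) = x :=
    hadj _ _ fun x => Q.symm_apply_apply x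
  obtain ⟨P, hP, hP'⟩ : ∃ P : E d ≃L[ℝ] E d,
      (∀ v, P v = adjoint (Q.symm : E d →L[ℝ] E d) v) ∧
      ∀ v, P.symm v = adjoint (Q : E d →L[ℝ] E d) v :=
    ⟨ContinuousLinearEquiv.equivOfInverse (adjoint (Q.symm : E d →L[ℝ] E d))
      (adjoint (Q : E d →L[ℝ] E d)) e2 e1, fun _ => rfl, fun _ => rfl⟩
  obtain ⟨T, hT⟩ : ∃ T : ℕ → E d →L[ℝ] E d, ∀ l,
      T l = (adjoint (Q : E d →L[ℝ] E d)).comp (A' l) := ⟨_, fun _ => rfl⟩
  have hTa : ∀ l, adjoint (T l) = (adjoint (A' l)).comp (Q : E d →L[ℝ] E d) := by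
    intro l
    rw [hT, ContinuousLinearMap.adjoint_comp, ContinuousLinearMap.adjoint_adjoint]
  have hTn : ∀ l, ‖T l‖ = ‖(adjoint (A' l)).comp (Q : E d →L[ℝ] E d)‖ := by
    intro l
    rw [← hTa, LinearIsometryEquiv.norm_map]
  have hAPT : ∀ l < N, ∀ y, A l (P (T l y)) = y := by
    intro l hl y
    rw [hT]
    show A l (P (adjoint (Q : E d →L[ℝ] E d) (A' l y))) = y
    rw [hP, e1]
    exact (hA l hl).2.2.2 y
  refine ⟨P, T, fun v => ?_, fun v => ?_, fun l hl w => ?_, hAPT, fun l hl => ?_, fun v => ?_⟩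
  · have h1 : ‖P.symm (P v)‖ ≤ 1 * ‖P v‖ := by
      rw [hP']
      refine ContinuousLinearMap.le_of_opNorm_le _ ?_ _
      rw [LinearIsometryEquiv.norm_map]
      exact hQn
    rwa [P.symm_apply_apply, one_mul] at h1
  · rw [hP]
    refine ContinuousLinearMap.le_of_opNorm_le _ ?_ _
    rw [LinearIsometryEquiv.norm_map]
    exact hQs
  · rw [hT]
    show adjoint (Q : E d →L[ℝ] E d) (A' l (A l (P w))) = w
    rw [(hA l hl).2.2.1, hP, e2]
  · rw [hT]
    refine (ContinuousLinearMap.opNorm_comp_le _ _).trans ?_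
    rw [LinearIsometryEquiv.norm_map]
    calc ‖(Q : E d →L[ℝ] E d)‖ * ‖A' l‖ ≤ 1 * K :=
          mul_le_mul hQn (hA l hl).2.1 (norm_nonneg _) zero_le_one
      _ = K := one_mul K
  · -- the path
    obtain ⟨u, hu⟩ : ∃ u : ℕ → E d → E d, ∀ l x, u l x = adjoint (A' l) (Q x) :=
      ⟨fun l x => adjoint (A' l) (Q x), fun _ _ => rfl⟩
    obtain ⟨G, hG⟩ : ∃ G : ℕ → E d → E d, ∀ l x, G l x = c l • T l (u l x) :=
      ⟨fun l x => c l • T l (u l x), fun _ _ => rfl⟩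
    have hGin : ∀ l x y, inner ℝ (G l x) y = c l * inner ℝ (u l x) (u l y) := by
      intro l x y
      rw [hG, real_inner_smul_left, ← ContinuousLinearMap.adjoint_inner_right, hTa]
      simp only [hu]
      rfl
    have hcl : ∀ l < N, 0 ≤ c l ∧ c l * ‖T l‖ ^ 2 ≤ 1 := by
      intro l hl
      rw [hTn]
      exact ⟨(hc l hl).1.le, (hc l hl).2⟩
    have hun : ∀ l x, ‖u l x‖ ≤ ‖T l‖ * ‖x‖ := by
      intro l x
      rw [hTn, hu]
      exact ContinuousLinearMap.le_opNorm ((adjoint (A' l)).comp (Q : E d →L[ℝ] E d)) x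
    have hsum : ∀ x, ∑ l ∈ Finset.range N, G l x = ((N : ℝ) / d) • x := by
      intro x
      refine ext_inner_right ℝ fun y => ?_
      rw [sum_inner, real_inner_smul_left, ← hiso x y]
      refine Finset.sum_congr rfl fun l _ => ?_
      rw [hGin, hu, hu]
    obtain ⟨a, ha⟩ : ∃ a : ℕ → E d → ℝ, ∀ l x, a l x =
        (d : ℝ) / N * ∑ i ∈ Finset.range l, c i * ‖u i x‖ ^ 2 := ⟨_, fun _ _ => rfl⟩
    obtain ⟨S, hS⟩ : ∃ S : ℕ → E d → E d, ∀ l x, S l x =
        ((d : ℝ) / N) • ∑ i ∈ Finset.range l, G i x := ⟨_, fun _ _ => rfl⟩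
    have hSin : ∀ l x y, inner ℝ (S l x) y =
        (d : ℝ) / N * ∑ i ∈ Finset.range l, c i * inner ℝ (u i x) (u i y) := by
      intro l x y
      rw [hS, real_inner_smul_left, sum_inner]
      congr 1
      exact Finset.sum_congr rfl fun i _ => hGin i x y
    have ha0 : ∀ l ≤ N, ∀ x, 0 ≤ a l x := by
      intro l hl x
      rw [ha]
      refine mul_nonneg (by positivity) (Finset.sum_nonneg fun i hi => ?_)
      exact mul_nonneg (hcl i (by have := Finset.mem_range.1 hi; omega)).1 (sq_nonneg _)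
    have hale : ∀ l ≤ N, ∀ x, a l x ≤ ‖x‖ ^ 2 := by
      intro l hl x
      have h1 := hiso x x
      simp only [real_inner_self_eq_norm_sq] at h1
      have h2 : ∑ i ∈ Finset.range l, c i * ‖u i x‖ ^ 2 ≤ (N : ℝ) / d * ‖x‖ ^ 2 := by
        rw [← h1]
        have h3 : ∀ i, c i * ‖u i x‖ ^ 2 = c i * ‖adjoint (A' i) (Q x)‖ ^ 2 := by
          intro i
          rw [hu]
        rw [← Finset.sum_congr rfl fun i _ => h3 i]
        refine Finset.sum_le_sum_of_subset_of_nonneg (Finset.range_mono hl) fun i hi _ => ?_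
        exact mul_nonneg (hcl i (Finset.mem_range.1 hi)).1 (sq_nonneg _)
      rw [ha]
      calc (d : ℝ) / N * ∑ i ∈ Finset.range l, c i * ‖u i x‖ ^ 2
          ≤ (d : ℝ) / N * ((N : ℝ) / d * ‖x‖ ^ 2) := mul_le_mul_of_nonneg_left h2 (by positivity)
        _ = ‖x‖ ^ 2 := by field_simp
    have hsub : ∀ i (x y : E d), u i (x - y) = u i x - u i y := by
      intro i x y
      rw [hu, hu, hu, map_sub, map_sub]
    have key : ∀ l ≤ N, ∀ x, ‖S l x‖ ^ 2 ≤ inner ℝ (S l x) x := by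
      intro l hl x
      obtain ⟨w, hw⟩ : ∃ w, w = S l x := ⟨_, rfl⟩
      have h1 : a l (x - w) = a l x - 2 * inner ℝ (S l x) w + a l w := by
        rw [ha, ha, ha, hSin]
        have h2 : ∀ i, c i * ‖u i (x - w)‖ ^ 2 = c i * ‖u i x‖ ^ 2 -
            2 * (c i * inner ℝ (u i x) (u i w)) + c i * ‖u i w‖ ^ 2 := by
          intro i
          rw [hsub, norm_sub_sq_real]
          ring
        simp only [h2, Finset.sum_add_distrib, Finset.sum_sub_distrib, ← Finset.mul_sum]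
        ring
      have h3 := ha0 l hl (x - w)
      have h4 := hale l hl w
      have h5 : inner ℝ (S l x) w = ‖w‖ ^ 2 := by
        rw [← hw, real_inner_self_eq_norm_sq]
      have h6 : inner ℝ (S l x) x = a l x := by
        rw [hSin, ha]
        simp only [real_inner_self_eq_norm_sq]
      rw [h6, ← hw]
      linarith
    refine ⟨fun l => v - S l v, ?_, ?_, fun l hl => ?_, fun l hl => ?_⟩
    · show v - S 0 v = v
      rw [hS]
      simp
    · show v - S N v = 0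
      rw [hS, hsum, smul_smul]
      have : (d : ℝ) / N * (N / d) = 1 := by field_simp
      rw [this, one_smul, sub_self]
    · show ‖v - S l v - (1 / 2 : ℝ) • v‖ ≤ ‖v‖ / 2
      have h1 := key l hl v
      refine le_of_sq_le_sq ?_ (by positivity)
      have h2 : v - S l v - (1 / 2 : ℝ) • v = (1 / 2 : ℝ) • v - S l v := by module
      rw [h2, norm_sub_sq_real, norm_smul, real_inner_smul_left, real_inner_comm (S l v) v]
      have h3 : ‖(1 / 2 : ℝ)‖ = 1 / 2 := by norm_num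
      rw [h3]
      nlinarith
    · have h1 : (fun l => v - S l v) (l + 1) - (fun l => v - S l v) l =
          -(((d : ℝ) / N) • G l v) := by
        show v - S (l + 1) v - (v - S l v) = _
        rw [hS, hS, Finset.sum_range_succ, smul_add]
        abel
      obtain ⟨h0, h2⟩ := hcl l hl
      have h3 := hun l v
      have hdN : (0 : ℝ) ≤ (d : ℝ) / N := by positivity
      have h4 : c l * (‖T l‖ * ‖u l v‖) ≤ ‖v‖ := by
        calc c l * (‖T l‖ * ‖u l v‖) ≤ c l * (‖T l‖ * (‖T l‖ * ‖v‖)) :=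
              mul_le_mul_of_nonneg_left (mul_le_mul_of_nonneg_left h3 (norm_nonneg _)) h0
          _ = (c l * ‖T l‖ ^ 2) * ‖v‖ := by ring
          _ ≤ 1 * ‖v‖ := mul_le_mul_of_nonneg_right h2 (norm_nonneg _)
          _ = ‖v‖ := one_mul _
      rw [h1]
      refine ⟨?_, ?_⟩
      · rw [norm_neg, norm_smul, Real.norm_eq_abs, abs_of_nonneg hdN]
        refine mul_le_mul_of_nonneg_left ?_ hdN
        rw [hG, norm_smul, Real.norm_eq_abs, abs_of_nonneg h0]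
        exact (mul_le_mul_of_nonneg_left ((T l).le_opNorm _) h0).trans h4
      · rw [map_neg, map_neg, norm_neg, map_smul, map_smul, hG, map_smul, map_smul,
          hAPT l hl, norm_smul, norm_smul, Real.norm_eq_abs, abs_of_nonneg hdN, Real.norm_eq_abs,
          abs_of_nonneg h0]
        calc ‖T l‖ * ((d : ℝ) / N * (c l * ‖u l v‖)) = (d : ℝ) / N * (c l * (‖T l‖ * ‖u l v‖)) := by
              ring
          _ ≤ (d : ℝ) / N * ‖v‖ := mul_le_mul_of_nonneg_left h4 hdN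

end Pool.Agent.H33.CL
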