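import Pool.Agent.H88.CL.Basic

/-!
# ISA: existence of the maximiser
-/

set_option autoImplicit false

open Pool.Agent.H88.CL Set Function Topology Metric Filter

namespace Pool.Agent.H33.CL

theorem fr_nonneg {d : ℕ} (M : Matrix (Fin d) (Fin d) ℝ) : 0 ≤ fr M :=
  Finset.sum_nonneg fun _ _ => Finset.sum_nonneg fun _ _ => sq_nonneg _

theorem fr_eq_zero {d : ℕ} {M : Matrix (Fin d) (Fin d) ℝ} (h : fr M = 0) : M = 0 := by
  unfold fr at h
  ext i j
  have h1 := (Finset.sum_eq_zero_iff_of_nonneg fun i _ =>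
    Finset.sum_nonneg fun j _ => sq_nonneg (M i j)).1 h i (Finset.mem_univ i)
  have h2 := (Finset.sum_eq_zero_iff_of_nonneg fun j _ => sq_nonneg (M i j)).1 h1 j
    (Finset.mem_univ j)
  exact pow_eq_zero_iff (two_ne_zero) |>.1 h2

theorem fr_smul {d : ℕ} (s : ℝ) (M : Matrix (Fin d) (Fin d) ℝ) : fr (s • M) = s ^ 2 * fr M := by
  unfold fr
  rw [Finset.mul_sum]
  refine Finset.sum_congr rfl fun i _ => ?_
  rw [Finset.mul_sum]
  refine Finset.sum_congr rfl fun j _ => ?_
  rw [Matrix.smul_apply, smul_eq_mul, mul_pow]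

theorem fr_cont {d : ℕ} : Continuous (fr : Matrix (Fin d) (Fin d) ℝ → ℝ) := by
  unfold fr
  refine continuous_finsetSum _ fun i _ => continuous_finsetSum _ fun j _ => ?_
  exact (continuous_apply_apply i j).pow 2

theorem mul_ne_zero_of_det {d : ℕ} {B Q : Matrix (Fin d) (Fin d) ℝ} (hB : B.det ≠ 0)
    (hQ : Q ≠ 0) : B * Q ≠ 0 := by
  intro h
  apply hQ
  have h1 : B⁻¹ * B = 1 := Matrix.nonsing_inv_mul B (isUnit_iff_ne_zero.2 hB)
  calc Q = B⁻¹ * B * Q := by rw [h1, one_mul]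
    _ = B⁻¹ * (B * Q) := Matrix.mul_assoc _ _ _
    _ = 0 := by rw [h, Matrix.mul_zero]

theorem compact_sphere (d : ℕ) : IsCompact {M : Matrix (Fin d) (Fin d) ℝ | fr M = 1} := by
  have h1 : IsCompact (Set.pi Set.univ (fun _ : Fin d => Set.pi Set.univ
      (fun _ : Fin d => Set.Icc (-1 : ℝ) 1))) :=
    isCompact_univ_pi fun _ => isCompact_univ_pi fun _ => isCompact_Icc
  refine h1.of_isClosed_subset (isClosed_eq fr_cont continuous_const) ?_
  intro M hM i _ j _
  have h2 : (M i j) ^ 2 ≤ 1 := by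
    have h3 : fr M = 1 := hM
    rw [← h3]
    unfold fr
    calc (M i j) ^ 2 ≤ ∑ j, (M i j) ^ 2 :=
          Finset.single_le_sum (f := fun j => (M i j) ^ 2) (fun j _ => sq_nonneg _)
            (Finset.mem_univ j)
      _ ≤ ∑ i, ∑ j, (M i j) ^ 2 :=
          Finset.single_le_sum (f := fun i => ∑ j, (M i j) ^ 2)
            (fun i _ => Finset.sum_nonneg fun j _ => sq_nonneg _) (Finset.mem_univ i)
  exact abs_le.1 ((sq_le_one_iff_abs_le_one _).1 h2)

theorem pf_ISA : T_ISA := by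
  intro d hd N hN B hB
  have hpos : ∀ Q : Matrix (Fin d) (Fin d) ℝ, Q ≠ 0 → 0 < ∏ l, fr (B l * Q) ^ d := by
    intro Q hQ
    refine Finset.prod_pos fun l _ => pow_pos ?_ d
    refine lt_of_le_of_ne (fr_nonneg _) fun h => ?_
    exact mul_ne_zero_of_det (hB l) hQ (fr_eq_zero h.symm)
  have hne0 : ∀ Q : Matrix (Fin d) (Fin d) ℝ, fr Q = 1 → Q ≠ 0 := by
    rintro Q hQ rfl
    have h1 : fr (0 : Matrix (Fin d) (Fin d) ℝ) = 0 := by simp [fr]
    rw [h1] at hQ
    exact zero_ne_one hQ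
  have hd0 : (0 : ℝ) < d := by exact_mod_cast hd
  -- a point of the sphere with positive determinant
  obtain ⟨s, hs0, hs⟩ : ∃ s : ℝ, 0 < s ∧ s ^ 2 * d = 1 :=
    ⟨Real.sqrt (1 / d), Real.sqrt_pos.2 (by positivity), by
      rw [Real.sq_sqrt (by positivity)]
      field_simp⟩
  have h1fr : fr (s • (1 : Matrix (Fin d) (Fin d) ℝ)) = 1 := by
    rw [fr_smul, ← hs]
    congr 1
    unfold fr
    have : ∀ i : Fin d, ∑ j, ((1 : Matrix (Fin d) (Fin d) ℝ) i j) ^ 2 = 1 := by
      intro i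
      rw [Finset.sum_eq_single i]
      · rw [Matrix.one_apply_eq, one_pow]
      · intro j _ hj
        rw [Matrix.one_apply_ne (Ne.symm hj)]
        norm_num
      · intro h
        exact absurd (Finset.mem_univ i) h
    simp only [this]
    simp
  obtain ⟨Q, hQ, hmax⟩ := (compact_sphere d).exists_isMaxOn (f := fun Q =>
    Q.det ^ (2 * N) / ∏ l, fr (B l * Q) ^ d) ⟨_, h1fr⟩ (by
      refine ContinuousOn.div ?_ ?_ ?_
      · exact (continuous_id.matrix_det.pow _).continuousOn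
      · exact (continuous_finsetProd _ fun l _ =>
          (fr_cont.comp (continuous_const.matrix_mul continuous_id)).pow d).continuousOn
      · intro Q hQ
        exact (hpos Q (hne0 Q hQ)).ne')
  have hQ0 : Q ≠ 0 := hne0 Q hQ
  have hdetQ : Q.det ≠ 0 := by
    intro h0
    have h2 := hmax (show s • (1 : Matrix (Fin d) (Fin d) ℝ) ∈ {M | fr M = 1} from h1fr)
    simp only [Set.mem_ofPred_eq] at h2
    rw [h0, zero_pow (by omega), zero_div] at h2
    have h3 : 0 < (s • (1 : Matrix (Fin d) (Fin d) ℝ)).det ^ (2 * N) := by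
      rw [Matrix.det_smul, Matrix.det_one, mul_one]
      positivity
    have h4 := div_pos h3 (hpos _ (hne0 _ h1fr))
    exact absurd h4 (not_lt.2 h2)
  refine ⟨Q, hdetQ, fun R => ?_⟩
  by_cases hR : R = 0
  · subst hR
    have : Nonempty (Fin d) := ⟨⟨0, hd⟩⟩
    rw [Matrix.det_zero, zero_pow (by omega), zero_mul]
    refine mul_nonneg ?_ (Finset.prod_nonneg fun l _ => pow_nonneg (fr_nonneg _) d)
    rw [pow_mul]
    exact pow_nonneg (sq_nonneg _) _
  · have hfR : 0 < fr R := lt_of_le_of_ne (fr_nonneg R) fun h => hR (fr_eq_zero h.symm)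
    obtain ⟨t, ht0, ht⟩ : ∃ t : ℝ, 0 < t ∧ t ^ 2 * fr R = 1 :=
      ⟨Real.sqrt (1 / fr R), Real.sqrt_pos.2 (by positivity), by
        rw [Real.sq_sqrt (by positivity)]
        field_simp⟩
    have h2 := hmax (show t • R ∈ {M | fr M = 1} from by
      show fr (t • R) = 1
      rw [fr_smul, ht])
    simp only [Set.mem_ofPred_eq] at h2
    have h3 : (t • R).det ^ (2 * N) = (t ^ (2 * (d * N))) * R.det ^ (2 * N) := by
      rw [Matrix.det_smul, Fintype.card_fin, mul_pow, ← pow_mul]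
      congr 2
      ring
    have h4 : ∏ l, fr (B l * (t • R)) ^ d = (t ^ (2 * (d * N))) * ∏ l, fr (B l * R) ^ d := by
      have h5 : ∀ l, fr (B l * (t • R)) ^ d = t ^ (2 * d) * fr (B l * R) ^ d := by
        intro l
        rw [Matrix.mul_smul, fr_smul, mul_pow, ← pow_mul]
      simp only [h5]
      rw [Finset.prod_mul_distrib, Finset.prod_const, Finset.card_univ, Fintype.card_fin, ← pow_mul]
      congr 2
      ring
    rw [h3, h4, mul_div_mul_left _ _ (pow_pos ht0 _).ne',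
      div_le_div_iff₀ (hpos R hR) (hpos Q hQ0)] at h2
    exact h2

end Pool.Agent.H33.CL
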